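import Mathlib
import Pool.Agent.H11.HypDom.Defs
import Pool.Agent.H11.HypDom.Asym

open Pool.Agent.H11.HypDom

theorem Pool.Agent.Results.MP_39aace_co.Polylog.result :
    ∀ α : ℝ, 0 < α → α < 1 / 2 → ∃ c : ℝ, 0 < c ∧ ∀ n : ℕ, 3 ≤ n →
      c * (Real.log n) ^ α ≤ (upperDirDom 3 1 (completeHyp n 3) : ℝ) :=
  three_lower
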